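import Pool.Agent.Helper57_K9.Stmts
import Pool.Agent.Helper20_PP.Nls
import Pool.Agent.Helper50_PP.Ffa
import Pool.Agent.Helper50_PP.Bid
import Pool.Agent.Helper25_KF.Idm
import Pool.Agent.Helper46_PP.Alg

/-!
# Squad K9, row VAL: the values at the singular elements
-/

open scoped BigOperators

noncomputable section

namespace Pool.Agent.PP.K9.H88

open Pool.Agent.Helper51_AWC Pool.Agent.Helper79_WRA Pool.Agent.PP Pool.Agent.PP.KF
  Pool.Agent.PP.K9

attribute [local instance] Ideal.Quotient.field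

/-- a nontrivial element of a group of prime order generates it -/
theorem mem_zp {G : Type} [Group G] [Finite G] {ℓ : ℕ} (hl : ℓ.Prime) {v w : G}
    (hv : orderOf v = ℓ) (hw : w ∈ Subgroup.zpowers v) (h1 : w ≠ 1) :
    orderOf w = ℓ ∧ v ∈ Subgroup.zpowers w := by
  have h2 : orderOf w ∣ ℓ := by
    rw [← hv]; exact orderOf_dvd_of_mem_zpowers hw
  have h3 : orderOf w = ℓ := by
    rcases (Nat.dvd_prime hl).1 h2 with h | h
    · exact absurd (orderOf_eq_one_iff.1 h) h1
    · exact h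
  refine ⟨h3, ?_⟩
  have h4 : Subgroup.zpowers w ≤ Subgroup.zpowers v := by
    rw [Subgroup.zpowers_le]; exact hw
  have h5 : Subgroup.zpowers w = Subgroup.zpowers v :=
    Subgroup.eq_of_le_of_card_ge h4 (by rw [Nat.card_zpowers, Nat.card_zpowers, hv, h3])
  rw [h5]
  exact Subgroup.mem_zpowers v

theorem cu_cent {G : Type} [Group G] (u : G) :
    Cu u = Subgroup.centralizer (Subgroup.zpowers u : Set G) := by
  apply le_antisymm
  · intro x hx
    rw [Subgroup.mem_centralizer_iff]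
    rintro _ ⟨k, rfl⟩
    have : Commute x u := Subgroup.mem_centralizer_singleton_iff.1 hx
    exact (this.zpow_right k).eq.symm
  · refine Subgroup.centralizer_le ?_
    rw [Set.singleton_subset_iff]
    exact Subgroup.mem_zpowers u

/-- the restriction to the centraliser of an element of order `ℓ` -/
theorem idem_cu {ℓ : ℕ} {F X : Type} [Field F] (hF : GoodF ℓ F) [Group X] [Finite X] {e : X → F}
    (he : IsIdem e) {u : X} (hu : orderOf u = ℓ) : IsIdem (fun t : Cu u => e t) := by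
  have : Fact ℓ.Prime := ⟨hF.prime⟩
  have hp : IsPGroup ℓ (Subgroup.zpowers u) :=
    IsPGroup.of_card (n := 1) (by rw [Nat.card_zpowers, hu, pow_one])
  have hc := (cu_cent u).ge
  have hc' := (cu_cent u).le
  have hn : Cu u ≤ Subgroup.normalizer (Subgroup.zpowers u : Set X) :=
    hc'.trans (Subgroup.centralizer_le_normalizer _)
  have h := (H20.brm ℓ F hF X (Subgroup.zpowers u) (Cu u) hp hc hn).2.2 e he
  have h2 : (fun t : Cu u => br (Subgroup.zpowers u) e t) = fun t : Cu u => e t := by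
    funext t
    exact H66.br_of_mem (hc' t.2)
  rwa [h2] at h

section gb

variable {G : Type} [Group G] [Finite G] {M : Ideal (integralClosure ℤ ℂ)} [hM : M.IsMaximal]

omit hM in
open Classical in
/-- `χ(x b)` in terms of the constituents of the restriction -/
theorem gbv_eq (C : Subgroup G) [Fintype (Irr C)] (b : C → FF M) (m : Irr C → ℂ) {χ : G → ℂ}
    (hm : ∀ c : C, χ c = ∑ κ : Irr C, m κ * (κ : C → ℂ) c) (x : C) :
    gbv C x (eh M b) χ = ∑ κ : Irr C, if (κ : C → ℂ) ∈ IrrE M b then m κ * (κ : C → ℂ) x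
      else 0 := by
  have := Fintype.ofFinite C
  rw [gbv, finsum_eq_sum_of_fintype]
  have h1 : ∀ c : C, eh M b c * χ ((x : G) * c) =
      ∑ κ : Irr C, m κ * (eh M b c * (κ : C → ℂ) (c * x)) := by
    intro c
    have h2 : χ ((x : G) * c) = χ ((x * c : C) : G) := by rw [Subgroup.coe_mul]
    rw [h2, hm, Finset.mul_sum]
    refine Finset.sum_congr rfl fun κ _ => ?_
    rw [irr_mul_comm κ.2 c x]
    ring
  simp_rw [h1]
  rw [Finset.sum_comm]
  refine Finset.sum_congr rfl fun κ _ => ?_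
  rw [← Finset.mul_sum, H50.eigen (H25.eh_cl b) κ.2 x]
  split_ifs with h
  · rw [(H25.eh_om b κ.2).1 h, one_mul]
  · rw [(H25.eh_om b κ.2).2 h, zero_mul, mul_zero]

/-- the restriction of a function in the block to the elements with `u` as a power -/
theorem key (sm2 : Sm2Stmt) {ℓ : ℕ} [Fact ℓ.Prime] (hl : (ℓ : integralClosure ℤ ℂ) ∈ M)
    {e : G → FF M} (he : IsIdem e) {u : G} (hu : orderOf u = ℓ) {χ : G → ℂ}
    (hχ : χ ∈ IrrE M e) : ∃ g ∈ Submodule.span ℂ (IrrE M (fun t : Cu u => e t)),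
      ∀ x : Cu u, u ∈ Subgroup.zpowers (x : G) → χ x = g x := by
  classical
  have := Fintype.ofFinite (Cu u)
  have := Fintype.ofFinite (Irr (Cu u))
  have hF : GoodF ℓ (FF M) := H50.fld ℓ (Fact.out) M hl
  have heC : IsIdem (fun t : Cu u => e t) := idem_cu hF he hu
  obtain ⟨m, hm⟩ := H50.decomp (fun c : Cu u => χ c) (fun x y => irr_conj hχ.1 _ _)
  have hm' : ∀ c : Cu u, χ c = ∑ κ : Irr (Cu u), m κ * (κ : Cu u → ℂ) c := by
    intro c
    have := congrFun hm c
    rw [Finset.sum_apply] at this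
    exact this
  obtain ⟨hb, hb0⟩ := H46.isIdem_sub (H46.isIdem_one (F := FF M) (H := Cu u)) heC
    (H46.one_mulF _)
  have hbE : ∀ κ : Irr (Cu u), (κ : Cu u → ℂ) ∈ IrrE M (dl (FF M) (1 : Cu u) -
      fun t : Cu u => e t) ↔ ¬ (κ : Cu u → ℂ) ∈ IrrE M (fun t : Cu u => e t) := by
    intro κ
    have h1 : res M (dl (FF M) (1 : Cu u) - fun t : Cu u => e t) κ =
        1 - res M (fun t : Cu u => e t) κ := by
      rw [H50.res_sub, H50.res_one (irr_one_ne κ.2) (fun g => omega_integral _ κ.2 g)]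
    rcases H50.res_idem heC κ.2 with h | h
    · constructor
      · rintro - ⟨-, h3⟩
        rw [h] at h3
        exact zero_ne_one h3
      · intro _
        exact ⟨κ.2, by rw [h1, h, sub_zero]⟩
    · constructor
      · rintro ⟨-, h3⟩
        rw [h1, h, sub_self] at h3
        exact absurd h3 zero_ne_one
      · intro h3
        exact absurd ⟨κ.2, h⟩ h3
  refine ⟨∑ κ : Irr (Cu u), if (κ : Cu u → ℂ) ∈ IrrE M (fun t : Cu u => e t) then
    m κ • (κ : Cu u → ℂ) else 0, ?_, ?_⟩
  · refine Submodule.sum_mem _ fun κ _ => ?_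
    split_ifs with h
    · exact Submodule.smul_mem _ _ (Submodule.subset_span h)
    · exact Submodule.zero_mem _
  · intro x hx
    have hxu : (x : G) ∈ Cu u := x.2
    have h2 := (sm2 ℓ M hl G u hu x hxu hx _ hb e he).2 hb0 χ hχ
    rw [gbv_eq (Cu u) _ m hm' x] at h2
    rw [hm' x, Finset.sum_apply, ← sub_eq_zero, ← Finset.sum_sub_distrib, ← h2]
    refine Finset.sum_congr rfl fun κ _ => ?_
    by_cases h : (κ : Cu u → ℂ) ∈ IrrE M (fun t : Cu u => e t)
    · rw [if_pos h, if_neg (fun h' => (hbE κ).1 h' h), Pi.smul_apply, smul_eq_mul, sub_self]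
    · rw [if_neg h, if_pos ((hbE κ).2 h), Pi.zero_apply, sub_zero]

theorem key_span (sm2 : Sm2Stmt) {ℓ : ℕ} [Fact ℓ.Prime] (hl : (ℓ : integralClosure ℤ ℂ) ∈ M)
    {e : G → FF M} (he : IsIdem e) {u : G} (hu : orderOf u = ℓ) {f : G → ℂ}
    (hf : f ∈ Submodule.span ℂ (IrrE M e)) :
    ∃ g ∈ Submodule.span ℂ (IrrE M (fun t : Cu u => e t)),
      ∀ x : Cu u, u ∈ Subgroup.zpowers (x : G) → f x = g x := by
  induction hf using Submodule.span_induction with
  | mem χ hχ => exact key sm2 hl he hu hχ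
  | zero => exact ⟨0, Submodule.zero_mem _, fun _ _ => rfl⟩
  | add a b _ _ ha hb =>
    obtain ⟨g, hg, h1⟩ := ha
    obtain ⟨g', hg', h2⟩ := hb
    refine ⟨g + g', Submodule.add_mem _ hg hg', fun x hx => ?_⟩
    rw [Pi.add_apply, Pi.add_apply, h1 x hx, h2 x hx]
  | smul c a _ ha =>
    obtain ⟨g, hg, h1⟩ := ha
    refine ⟨c • g, Submodule.smul_mem _ _ hg, fun x hx => ?_⟩
    rw [Pi.smul_apply, Pi.smul_apply, h1 x hx]

end gb

section loc

variable {G H : Type} [Group G] [Finite G] [Group H] [Finite H]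
  {M : Ideal (integralClosure ℤ ℂ)} [hM : M.IsMaximal]

omit [Finite G] [Finite H] hM in
/-- the characters of the blocks of the quotient -/
def K0 (e : G → FF M) {v : G} (π : Cu v →* H) : Set (H → ℂ) :=
  {κ | ∃ γ : Cu v → FF M, IsBlk γ ∧ mulF (fun t : Cu v => e t) γ = γ ∧
    κ ∈ IrrE M (H75.push π γ)}

theorem loc (ce0 : Ce0Stmt) (kap : KapStmt) {ℓ : ℕ} [Fact ℓ.Prime]
    (hl : (ℓ : integralClosure ℤ ℂ) ∈ M) {e : G → FF M} (he : IsBlk e) {v : G}
    (hV : Tp ℓ e (Subgroup.zpowers v)) {π : Cu v →* H} (hπ : Qt ℓ v π) {vC : Cu v}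
    (hvC : (vC : G) = v) {κ : Cu v → ℂ} (hκ : κ ∈ IrrE M (fun t : Cu v => e t)) :
    ∃ κ₀ ∈ K0 e π, ∃ ω : ℂ,
      (∀ (i : ℕ) (s : Cu v), Reg ℓ s → κ (vC ^ i * s) = ω ^ i * κ₀ (π s)) ∧
      ∀ x : Cu v, (∀ (i : ℕ) (s : Cu v), Reg ℓ s → x ≠ vC ^ i * s) → κ x = 0 := by
  classical
  have := Fintype.ofFinite (Cu v)
  have hF : GoodF ℓ (FF M) := H50.fld ℓ (Fact.out) M hl
  have heC : IsIdem (fun t : Cu v => e t) := idem_cu hF he.1 hπ.ord
  obtain ⟨γ, hγ, h1⟩ := H50.exists_block (M := M) hκ.1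
  have h2 : mulF (fun t : Cu v => e t) γ = γ := by
    rw [H46.mulF_comm heC.1]
    rcases hγ.2.2 _ heC with h | h
    · exact h
    · exfalso
      have h3 := H50.res_mul hγ.1.1 heC.1 hκ.1
      rw [h, H50.res_zero, h1, hκ.2, one_mul] at h3
      exact zero_ne_one h3
  obtain ⟨κ₀, hκ₀, hR⟩ := kap ℓ M hl G H e he v hV π hπ γ hγ h2
  have hcen : vC ∈ Subgroup.center (Cu v) := by
    rw [Subgroup.mem_center_iff]
    intro c
    apply Subtype.ext
    rw [Subgroup.coe_mul, Subgroup.coe_mul, hvC]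
    exact Subgroup.mem_centralizer_singleton_iff.1 c.2
  have hord : orderOf vC = ℓ := by
    rw [← Subgroup.orderOf_coe, hvC, hπ.ord]
  have hker : ∀ c : Cu v, π c = 1 ↔ c ∈ Subgroup.zpowers vC := by
    intro c
    rw [hπ.ker c, Subgroup.mem_zpowers_iff, Subgroup.mem_zpowers_iff]
    refine exists_congr fun k => ?_
    have hk : ((vC ^ k : Cu v) : G) = v ^ k := by rw [Subgroup.coe_zpow, hvC]
    rw [← hk, Subtype.ext_iff]
  obtain ⟨ω, -, h4, h5⟩ := ce0 ℓ M hl (Cu v) H π hπ.sur vC hcen hord hker γ hγ.1 κ₀ hκ₀ hR κ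
    ⟨hκ.1, h1⟩
  exact ⟨κ₀, ⟨γ, hγ, h2, by rw [hκ₀]; rfl⟩, ω, h4, h5⟩

theorem loc_span (ce0 : Ce0Stmt) (kap : KapStmt) {ℓ : ℕ} [Fact ℓ.Prime]
    (hl : (ℓ : integralClosure ℤ ℂ) ∈ M) {e : G → FF M} (he : IsBlk e) {v : G}
    (hV : Tp ℓ e (Subgroup.zpowers v)) {π : Cu v →* H} (hπ : Qt ℓ v π) {vC : Cu v}
    (hvC : (vC : G) = v) (i : ℕ) {g : Cu v → ℂ}
    (hg : g ∈ Submodule.span ℂ (IrrE M (fun t : Cu v => e t))) :
    (∃ F ∈ Submodule.span ℂ (K0 e π), ∀ s : Cu v, Reg ℓ s → g (vC ^ i * s) = F (π s)) ∧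
      ∀ x : Cu v, (∀ (j : ℕ) (s : Cu v), Reg ℓ s → x ≠ vC ^ j * s) → g x = 0 := by
  induction hg using Submodule.span_induction with
  | mem χ hχ =>
    obtain ⟨κ₀, h0, ω, h1, h2⟩ := loc ce0 kap hl he hV hπ hvC hχ
    refine ⟨⟨ω ^ i • κ₀, Submodule.smul_mem _ _ (Submodule.subset_span h0), fun s hs => ?_⟩, h2⟩
    rw [h1 i s hs, Pi.smul_apply, smul_eq_mul]
  | zero => exact ⟨⟨0, Submodule.zero_mem _, fun _ _ => rfl⟩, fun _ _ => rfl⟩
  | add a b _ _ ha hb =>
    obtain ⟨⟨F, hF, h1⟩, h2⟩ := ha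
    obtain ⟨⟨F', hF', h3⟩, h4⟩ := hb
    refine ⟨⟨F + F', Submodule.add_mem _ hF hF', fun s hs => ?_⟩, fun x hx => ?_⟩
    · rw [Pi.add_apply, Pi.add_apply, h1 s hs, h3 s hs]
    · rw [Pi.add_apply, h2 x hx, h4 x hx, add_zero]
  | smul c a _ ha =>
    obtain ⟨⟨F, hF, h1⟩, h2⟩ := ha
    refine ⟨⟨c • F, Submodule.smul_mem _ _ hF, fun s hs => ?_⟩, fun x hx => ?_⟩
    · rw [Pi.smul_apply, Pi.smul_apply, h1 s hs]
    · rw [Pi.smul_apply, h2 x hx, smul_zero]

end loc

theorem span_conj {G : Type} [Group G] {S : Set (G → ℂ)} (hS : S ⊆ Irr G) {f : G → ℂ}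
    (hf : f ∈ Submodule.span ℂ S) (x y : G) : f (y * x * y⁻¹) = f x := by
  induction hf using Submodule.span_induction with
  | mem χ hχ =>
    obtain ⟨n, ρ, hρ, rfl⟩ := hS hχ
    exact Representation.char_conj ρ x y
  | zero => rfl
  | add a b _ _ ha hb => rw [Pi.add_apply, Pi.add_apply, ha, hb]
  | smul c a _ ha => rw [Pi.smul_apply, Pi.smul_apply, ha]

theorem val (fmg : FmgStmt) (sm2 : Sm2Stmt) (ce0 : Ce0Stmt) (kap : KapStmt) : ValStmt := by
  intro ℓ _ M _ hl G H _ _ _ _ e he v hV π hπ f hf hA x hx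
  classical
  have := Fintype.ofFinite G
  have := Fintype.ofFinite (Cu v)
  have hlp : ℓ.Prime := Fact.out
  have hcl := span_conj (fun χ hχ => hχ.1) hf
  -- the main case
  have main : ∀ x : G, ¬ Reg ℓ x → v ∈ Subgroup.zpowers x → f x = 0 := by
    intro x hx hvx
    have hxC : x ∈ Cu v := by
      rw [Subgroup.mem_centralizer_singleton_iff]
      obtain ⟨k, hk⟩ := Subgroup.mem_zpowers_iff.1 hvx
      rw [← hk]
      exact ((Commute.refl x).zpow_right k).eq
    obtain ⟨vC, hvC⟩ : ∃ vC : Cu v, (vC : G) = v :=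
      ⟨⟨v, Subgroup.mem_centralizer_singleton_iff.2 rfl⟩, rfl⟩
    obtain ⟨g, hg, hgx⟩ := key_span sm2 hl he.1 hπ.ord hf
    have h0 : f x = g ⟨x, hxC⟩ := hgx ⟨x, hxC⟩ hvx
    by_cases hform : ∃ (i : ℕ) (s : Cu v), Reg ℓ s ∧ (⟨x, hxC⟩ : Cu v) = vC ^ i * s
    · obtain ⟨i, s₀, hs₀, hx₀⟩ := hform
      have hx1 : x = v ^ i * s₀ := by
        have := congrArg (Subtype.val : Cu v → G) hx₀
        rw [Subgroup.coe_mul, Subgroup.coe_pow, hvC] at this
        exact this
      have hw : v ^ i ∈ Subgroup.zpowers v := ⟨i, zpow_natCast v i⟩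
      have hw1 : v ^ i ≠ 1 := by
        intro h
        rw [h, one_mul] at hx1
        apply hx
        rw [hx1]
        have h1 : (orderOf s₀).Coprime ℓ := hs₀
        rw [← Subgroup.orderOf_coe] at h1
        exact h1
      obtain ⟨hwo, -⟩ := mem_zp hlp hπ.ord hw hw1
      obtain ⟨⟨F, hF, hFs⟩, -⟩ := loc_span ce0 kap hl he hV hπ hvC i hg
      have hpow : ∀ s : Cu v, Reg ℓ s → v ∈ Subgroup.zpowers (v ^ i * (s : G)) := by
        intro s hs
        have hcm : Commute (v ^ i) (s : G) := by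
          have h1 : Commute (s : G) v := Subgroup.mem_centralizer_singleton_iff.1 s.2
          exact (h1.pow_right i).symm
        have h1 : (orderOf (s : G)).Coprime ℓ := by
          have h2 : (orderOf s).Coprime ℓ := hs
          rwa [← Subgroup.orderOf_coe] at h2
        have h2 : (v ^ i * (s : G)) ^ orderOf (s : G) = (v ^ i) ^ orderOf (s : G) := by
          rw [hcm.mul_pow, pow_orderOf_eq_one, mul_one]
        have h3 : (v ^ i) ^ orderOf (s : G) ≠ 1 := by
          intro h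
          have h4 := orderOf_dvd_of_pow_eq_one h
          rw [hwo] at h4
          have h5 := (Nat.Prime.coprime_iff_not_dvd hlp).1 h1.symm
          exact h5 h4
        have h4 := (mem_zp hlp hπ.ord (Subgroup.pow_mem _ hw _) h3).2
        rw [← h2] at h4
        have h5 : Subgroup.zpowers ((v ^ i * (s : G)) ^ orderOf (s : G)) ≤
            Subgroup.zpowers (v ^ i * (s : G)) := by
          rw [Subgroup.zpowers_le]
          exact Subgroup.pow_mem _ (Subgroup.mem_zpowers _) _
        exact h5 h4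
      have hfw : ∀ s : Cu v, Reg ℓ s → f (v ^ i * s) = F (π s) := by
        intro s hs
        rw [← hFs s hs]
        have h1 : v ^ i * (s : G) = ((vC ^ i * s : Cu v) : G) := by
          rw [Subgroup.coe_mul, Subgroup.coe_pow, hvC]
        rw [h1]
        apply hgx
        rw [← h1]
        exact hpow s hs
      have hH : (Nat.card H : ℂ) ≠ 0 := by
        have : 0 < Nat.card H := Nat.card_pos
        exact_mod_cast this.ne'
      have hz : ∀ p ∈ Submodule.span ℂ (K0 e π),
          ∑ s : Cu v, (if Reg ℓ s then f (v ^ i * s) * starRingEnd ℂ (p (π s)) else 0) = 0 := by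
        intro p hp
        induction hp using Submodule.span_induction with
        | mem κ hκ =>
          obtain ⟨γ, hγ, h1, h2⟩ := hκ
          have h3 := hA γ hγ h1 κ h2 (v ^ i) hw hw1
          rw [Av, mul_eq_zero] at h3
          have h4 := h3.resolve_left (inv_ne_zero hH)
          rw [finsum_eq_sum_of_fintype] at h4
          refine Eq.trans (Finset.sum_congr rfl fun s _ => ?_) h4
          rw [finsum_eq_if]
        | zero => simp
        | add a b _ _ ha hb =>
          have h1 : ∑ s : Cu v, (if Reg ℓ s then f (v ^ i * s) *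
              starRingEnd ℂ ((a + b) (π s)) else 0) =
              ∑ s : Cu v, (if Reg ℓ s then f (v ^ i * s) * starRingEnd ℂ (a (π s)) else 0) +
              ∑ s : Cu v, (if Reg ℓ s then f (v ^ i * s) * starRingEnd ℂ (b (π s)) else 0) := by
            rw [← Finset.sum_add_distrib]
            refine Finset.sum_congr rfl fun s _ => ?_
            split_ifs
            · rw [Pi.add_apply, map_add, mul_add]
            · rw [add_zero]
          rw [h1, ha, hb, add_zero]
        | smul c a _ ha =>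
          have h1 : ∑ s : Cu v, (if Reg ℓ s then f (v ^ i * s) *
              starRingEnd ℂ ((c • a) (π s)) else 0) = starRingEnd ℂ c *
              ∑ s : Cu v, (if Reg ℓ s then f (v ^ i * s) * starRingEnd ℂ (a (π s)) else 0) := by
            rw [Finset.mul_sum]
            refine Finset.sum_congr rfl fun s _ => ?_
            split_ifs
            · rw [Pi.smul_apply, smul_eq_mul, map_mul]
              ring
            · rw [mul_zero]
          rw [h1, ha, mul_zero]
      have hsq := hz F hF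
      have hre : ∑ s : Cu v, (if Reg ℓ s then Complex.normSq (f (v ^ i * s)) else 0) = 0 := by
        have h1 : ((∑ s : Cu v, (if Reg ℓ s then Complex.normSq (f (v ^ i * s)) else 0) : ℝ) : ℂ)
            = 0 := by
          rw [← hsq, Complex.ofReal_sum]
          refine Finset.sum_congr rfl fun s _ => ?_
          split_ifs with h
          · rw [← hfw s h, Complex.mul_conj]
          · simp
        exact_mod_cast h1
      have hall := (Finset.sum_eq_zero_iff_of_nonneg (fun s _ => by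
        split_ifs
        · exact Complex.normSq_nonneg _
        · exact le_rfl)).1 hre s₀ (Finset.mem_univ _)
      rw [if_pos hs₀] at hall
      rw [hx1]
      exact Complex.normSq_eq_zero.1 hall
    · rw [h0]
      refine (loc_span ce0 kap hl he hV hπ hvC 0 hg).2 _ fun j s hs h => ?_
      exact hform ⟨j, s, hs, h⟩
  -- an element of order `ℓ` which is a power of `x`
  have hdvd : ℓ ∣ orderOf x := by
    by_contra h
    exact hx ((Nat.Prime.coprime_iff_not_dvd hlp).2 h).symm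
  obtain ⟨z, hz, hzx⟩ : ∃ z, orderOf z = ℓ ∧ z ∈ Subgroup.zpowers x :=
    ⟨x ^ (orderOf x / ℓ), orderOf_pow_orderOf_div (orderOf_pos x).ne' hdvd,
      Subgroup.pow_mem _ (Subgroup.mem_zpowers x) _⟩
  by_cases hgd : Gd e (Subgroup.zpowers z)
  · have hzp : IsPGroup ℓ (Subgroup.zpowers z) :=
      IsPGroup.of_card (n := 1) (by rw [Nat.card_zpowers, hz, pow_one])
    obtain ⟨a, ha⟩ := (fmg ℓ M hl G e he _ hV).1 _ hzp hgd
    obtain ⟨y, hy, hyz⟩ := ha (Subgroup.mem_zpowers z)
    have hyz' : a * y * a⁻¹ = z := hyz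
    have hy1 : y ≠ 1 := by
      rintro rfl
      rw [mul_one, mul_inv_cancel] at hyz'
      rw [← hyz', orderOf_one] at hz
      exact hlp.one_lt.ne hz
    have hvy := (mem_zp hlp hπ.ord hy hy1).2
    obtain ⟨k, hk⟩ := Subgroup.mem_zpowers_iff.1 hzx
    have hyx : y = (a⁻¹ * x * a⁻¹⁻¹) ^ k := by
      rw [conj_zpow, hk, ← hyz']
      group
    have hvx : v ∈ Subgroup.zpowers (a⁻¹ * x * a⁻¹⁻¹) := by
      have h1 : Subgroup.zpowers y ≤ Subgroup.zpowers (a⁻¹ * x * a⁻¹⁻¹) := by
        rw [Subgroup.zpowers_le, hyx]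
        exact Subgroup.zpow_mem _ (Subgroup.mem_zpowers _) _
      exact h1 hvy
    rw [← hcl x a⁻¹]
    refine main _ ?_ hvx
    intro h
    apply hx
    have h1 : (orderOf (a⁻¹ * x * a⁻¹⁻¹)).Coprime ℓ := h
    have h2 : orderOf (a⁻¹ * x * a⁻¹⁻¹) = orderOf x := by
      have := orderOf_injective (MulAut.conj a⁻¹).toMonoidHom (MulAut.conj a⁻¹).injective x
      exact this
    rw [h2] at h1
    exact h1
  · have hxz : x ∈ Cu z := by
      rw [Subgroup.mem_centralizer_singleton_iff]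
      obtain ⟨k, hk⟩ := Subgroup.mem_zpowers_iff.1 hzx
      rw [← hk]
      exact ((Commute.refl x).zpow_right k).eq
    obtain ⟨g, hg, hgx⟩ := key_span sm2 hl he.1 hz hf
    have h0 : (fun t : Cu z => e t) = 0 := by
      funext t
      by_contra h
      apply hgd
      refine ⟨t, ?_, h⟩
      rw [← cu_cent z]
      exact t.2
    have := Fintype.ofFinite (Cu z)
    have h1 : IrrE M (fun t : Cu z => e t) = ∅ := by
      rw [h0]
      ext κ
      constructor
      · rintro ⟨-, h2⟩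
        rw [H50.res_zero] at h2
        exact absurd h2 zero_ne_one
      · intro h2
        exact absurd h2 (Set.notMem_empty _)
    rw [h1, Submodule.span_empty, Submodule.mem_bot] at hg
    have h2 := hgx ⟨x, hxz⟩ hzx
    rw [hg] at h2
    exact h2

end Pool.Agent.PP.K9.H88
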